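import Pool.Agent.W743.BT.Defs
import Pool.Agent.H153R4.Pl

/-! Project BT, part TK: multiplier operators with a general compactly supported symbol. -/

set_option autoImplicit false

namespace Pool.Agent.W806.BT

open Set Filter MeasureTheory Metric Pool.Agent.W743.BT
open Pool.Agent.W773.BRA (E)
open scoped Topology ContDiff FourierTransform ENNReal RealInnerProductSpace

variable {n : ℕ}

theorem contF {g : E n → ℂ} (hg : Integrable g) : Continuous (𝓕 g) :=
  VectorFourier.fourierIntegral_continuous (L := innerₗ (E n)) Real.continuous_fourierChar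
    continuous_inner hg

theorem contFinv {g : E n → ℂ} (hg : Integrable g) : Continuous (𝓕⁻ g) := by
  have h : (𝓕⁻ g) = fun x => 𝓕 g (-x) := by
    funext x
    rw [Real.fourierInv_eq_fourier_neg]
  rw [h]
  exact (contF hg).comp continuous_neg

theorem tk : S_TK := by
  intro n m hm hmc g hg
  set F : E n → ℂ := fun ξ : E n => m ξ * 𝓕 g ξ with hF
  have hFc : Continuous F := hm.mul (contF hg)
  have hFs : HasCompactSupport F := hmc.mul_right
  have hFi : Integrable F := hFc.integrable_of_hasCompactSupport hFs
  have hF2 : MemLp F 2 := hFc.memLp_of_hasCompactSupport hFs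
  have hmi : Integrable m := hm.integrable_of_hasCompactSupport hmc
  refine ⟨contFinv hFi, hFi, hF2, ?_, ?_⟩
  · intro x
    set q : E n → ℂ := fun ξ => (Real.fourierChar ⟪ξ, x⟫ : ℂ) * m ξ with hq
    have hqi : Integrable q := by
      have : Continuous q := by
        have h1 : Continuous (fun ξ : E n => (Real.fourierChar ⟪ξ, x⟫ : ℂ)) :=
          continuous_subtype_val.comp (Real.continuous_fourierChar.comp (by fun_prop))
        exact h1.mul hm
      exact this.integrable_of_hasCompactSupport hmc.mul_left
    have h1 : TT m g x = ∫ ξ, q ξ * 𝓕 g ξ := by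
      unfold TT
      rw [Real.fourierInv_eq]
      apply integral_congr_ae
      filter_upwards with ξ
      rw [hq, Circle.smul_def, smul_eq_mul]
      ring
    have h2 := VectorFourier.integral_fourierIntegral_smul_eq_flip (L := innerₗ (E n))
        Real.continuous_fourierChar continuous_inner hqi hg (μ := volume) (ν := volume)
    simp only [flip_innerₗ] at h2
    have h3 : ∫ y, 𝓕 q y • g y = ∫ ξ, q ξ • 𝓕 g ξ := h2
    rw [h1]
    simp only [smul_eq_mul] at h3
    rw [← h3]
    apply integral_congr_ae
    filter_upwards with y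
    congr 1
    rw [Real.fourier_eq, Real.fourierInv_eq]
    apply integral_congr_ae
    filter_upwards with ξ
    rw [hq]
    simp only [Circle.smul_def, smul_eq_mul]
    rw [← mul_assoc]
    congr 1
    rw [inner_sub_right, sub_eq_add_neg, add_comm, AddChar.map_add_eq_mul]
    push_cast
    ring
  · have h1 := Pool.Agent.H153R4.plancherel F hFi hF2
    have h2 : ∫⁻ x, ‖TT m g x‖ₑ ^ 2 = ∫⁻ x : E n, ‖𝓕 F (-x)‖ₑ ^ 2 := by
      apply lintegral_congr
      intro x
      unfold TT
      rw [← hF, Real.fourierInv_eq_fourier_neg]
    rw [h2, lintegral_neg_eq_self (fun x : E n => ‖𝓕 F x‖ₑ ^ 2), h1]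
    apply lintegral_congr
    intro ξ
    rw [hF]
    simp only [enorm_mul, mul_pow]

end Pool.Agent.W806.BT
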